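import Pool.Agent.X218.GX.Five2

/-!
# Greenberg's conjecture for `p = 5` and all `N = 2^a 3^b`

For `p = 5` and `N = 2^a 3^b` (`a, b ≥ 0` arbitrary) the even characters `θ` modulo `5 N` are the `ψ ω^m` with a primitive
character `ψ` modulo a divisor `N'` of `N`, `1 ≤ m ≤ 4`, `ψ(-1) = (-1)^m`, and

  `L_5(1 - m, θ) = - (1 - ψ(5) 5^(m-1)) B_{m,ψ} / m`.

If this value is a unit at all places above `5`, then the `5`-adic `L`-function of `θ` is a unit and `X_θ = 0` (known:
the support statement in the problem file).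

Part 1: the value is a unit at all places above `5` for all `N' = 2^a 3^b`, all `m` and all `ψ`, except for

* `N' = 1`, `m = 4`: the trivial character, `X_θ = 0` as the class number of `ℚ` is one;
* `N' = 36`, `m = 4`: `θ = ψ` belongs to the real subfield of the field of the 36-th roots of unity, which has class
  number one and one prime above `5`, so that `X_θ = 0`;
* `N' = 16`, `m = 2` and `N' = 48`, `m = 3`: `θ` belongs to a real cyclic quartic field of conductor `80` and `240` with
  one prime above `5` and class number prime to `5` (tables), so that `X_θ = 0`;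
* `N' = 4`, `m = 1` and `N' = 24`, `m = 1` (odd `ψ`): here `ψ` is quadratic with `ψ(5) = 1` and the value is zero (a
  trivial zero).

Part 2: for `N' = 4` and `N' = 24` and the odd primitive `ψ` the value at `1 - 5`, `- (1 - ψ(5) 5^4) B_{5,ψ} / 5`, is `5` times
a unit. So the power series of `L_5(s, ψ ω)` is the factor of the trivial zero times a unit, and `X_θ` is finite (known: the
trivial zero does not belong to `X_θ`, Greenberg).

So for `p = 5` the group `X⁺` is finite for all `N = 2^a 3^b`. (The case `a = 0` is the starting result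
`FiveAndPowersOfThree`.)

Proof of part 1 for `a ≥ 6`, `b ≥ 2`. Write `F_m(x) = m! (B_m(x) - B_m)`, `M = N / 24`, `θ = ψ(1 + M)`, a root of unity of
order `24`. If the value is not a unit at a place above `5`, then the sum of `ψ(x) F_m(x/N)` is zero in the residue field.
As `5` generates the units modulo `3^b`, and modulo `2^a` up to sign, the parts of this sum over the four classes
`x ≡ ±c (mod 2^(a-3))`, `x ≡ ±c (mod 3^(b-1))` are zero for all `c`, and by reflection one has relations
`A(c) + A(c') = 0` between the sums over two classes `c` and `c' ≡ c z (mod M)`, with `z ≡ -1 (mod 2^(a-3))`,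
`z ≡ 1 (mod 3^(b-1))`. Up to a factor `A(c)` depends only on `θ`, on `M` modulo `5` and on `c` modulo `120`. So the relations
for `c = 1, 5, 7, 11` depend only on finitely many data: `θ` and `ψ(z)` (roots of unity in the field with `25` elements), `M` and
`z` modulo `5`, `m`, and the integral parts of `5z/M`, `7z/M`, `11z/M`. A finite calculation shows that they are never all
true. For `a ≤ 5` or `b ≤ 1` there are similar relations for the classes of one of the primes, and they again depend
only on `a` and `b` modulo `8`.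
-/

set_option autoImplicit false

namespace Pool.Agent.Results.MP_c2a07f_nt.FiveAndTwoPrimes

/-- The generalized Bernoulli number `B_{m,ψ} = N^(m-1) ∑_{a=1}^N ψ(a) B_m(a/N)`. -/
noncomputable def genBernoulli (m : ℕ) {N : ℕ} (ψ : DirichletCharacter ℂ N) : ℂ :=
  (N : ℂ) ^ (m - 1) * ∑ a ∈ Finset.Icc 1 N, ψ (a : ZMod N) *
    (((Polynomial.bernoulli m).eval ((a : ℚ) / N) : ℚ) : ℂ)

/-- `(1 - ψ(p) p^(m-1)) B_{m,ψ} / m`, the value at `1 - m` of the `L`-function of `ψ` without Euler factor
at `p` (up to the sign). -/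
noncomputable def lValue (p m : ℕ) {N : ℕ} (ψ : DirichletCharacter ℂ N) : ℂ :=
  (1 - ψ (p : ZMod N) * (p : ℂ) ^ (m - 1)) * genBernoulli m ψ / m

/-- `z` is a unit at all places above `p`: it is not zero, and for some integer `c` prime to `p` the numbers
`c z` and `c / z` are algebraic integers. -/
def IsUnitAt (p : ℕ) (z : ℂ) : Prop :=
  z ≠ 0 ∧ ∃ c : ℤ, IsCoprime (p : ℤ) c ∧ IsIntegral ℤ ((c : ℂ) * z) ∧ IsIntegral ℤ ((c : ℂ) * z⁻¹)

theorem result :
    (∀ N m : ℕ, N ≠ 0 → N.primeFactors ⊆ {2, 3} → 1 ≤ m → m ≤ 4 → ¬ (N = 1 ∧ m = 4) → ¬ (N = 4 ∧ m = 1) →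
      ¬ (N = 24 ∧ m = 1) → ¬ (N = 16 ∧ m = 2) → ¬ (N = 48 ∧ m = 3) → ¬ (N = 36 ∧ m = 4) →
      ∀ ψ : DirichletCharacter ℂ N, ψ.IsPrimitive → ψ (-1) = (-1) ^ m → IsUnitAt 5 (lValue 5 m ψ)) ∧
    (∀ N : ℕ, N = 4 ∨ N = 24 → ∀ ψ : DirichletCharacter ℂ N, ψ.IsPrimitive → ψ (-1) = -1 →
      IsUnitAt 5 (lValue 5 5 ψ / 5)) :=
  ⟨fun _ _ hN0 hN hm1 hm4 e1 e4 e24 e16 e48 e36 ψ hprim hpar =>
      Pool.Agent.X218.GX.five_all hN0 hN hm1 hm4 e1 e4 e24 e16 e48 e36 ψ hprim hpar,
    fun _ hN ψ hprim hpar => Pool.Agent.X218.GX.five_zero hN ψ hprim hpar⟩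

end Pool.Agent.Results.MP_c2a07f_nt.FiveAndTwoPrimes
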