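import Pool.Agent.X218.GX.ChkA
import Pool.Agent.X218.GX.ChkB
import Pool.Agent.X218.GX.ChkC
import Pool.Agent.X218.LP.Fin

/-!
# Greenberg's conjecture for `N = 2^K`: the primes `p ≡ 3 (mod 8)` below `340`

For `N = 2^K` the even characters `θ` modulo `p N` are the `ψ ω^m` with a primitive character `ψ` modulo a divisor `2^J` of
`N`, `1 ≤ m ≤ p - 1`, `ψ(-1) = (-1)^m`, and

  `L_p(1 - m, θ) = - (1 - ψ(p) p^(m-1)) B_{m,ψ} / m`.

If this value is a unit at all places above `p`, then the `p`-adic `L`-function of `θ` is a unit and `X_θ = 0` (known: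
the support statement in the problem file).

Part 1: for each of the 17 primes `p ≡ 3 (mod 8)`, `3 < p < 340`, the value is a unit at all places above `p` for all `m` and
all primitive `ψ` modulo `2^K`, `K ≥ 4` arbitrary. So `X_θ = 0` for all `θ` of conductor `2^K` or `2^K p` with `K ≥ 4`,
and `X⁺` is the same for all `N = 2^K`, `K ≥ 3`.

Part 2: for `p = 163, 211, 283, 331` the value is a unit at all places above `p` for all `K ≥ 0`, all `m` and all
`ψ`, except for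

* `K = 0`, `m = p - 1`: the trivial character, `X_θ = 0` as the class number of `ℚ` is one;
* `K = 3`, `m = 1`: here `ψ = χ_{-8}` is the odd character modulo `8`, `ψ(p) = 1` and the value is zero (a trivial zero);
  `X_θ = 0` by the reflection theorem, since the class number of `ℚ(√-2)` is one and `θ` is not trivial on the
  decomposition group of `p`;
* `p = 283` and `K = 0`, which is not considered here: `283` is irregular, `X⁺ = 0` for `N = 1` by the tables (Vandiver's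
  conjecture).

So `X⁺ = 0` for these four primes and all `N = 2^K`.

Proof of part 1 for `K ≥ 6`: write `F_m(x) = m! (B_m(x) - B_m)`. If the value is not a unit at a place above `p`, then the sum
of `ψ(a) F_m(a/2^K)` is zero in a field `k` of characteristic `p`. As `p` and `-1` generate the units modulo `2^K` and
the field of the 8-th roots of unity over `F_p` is of degree two, the part of this sum over each class
`a ≡ ±c (mod 2^(K-3))` is zero. For `64 m ≤ 2^K` this contradicts the degree `m` of `F_m`. For the other (finitely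
many) `K` and `m` the class sums are `D_0 + ξ D_1 + ξ² D_2 + ξ³ D_3` with `ξ⁴ = -1` and sums `D_i` of powers modulo `p`, and one
of four classes is not zero by a finite calculation. For `K = 2, 3, 4, 5` the whole sums are of this form.
-/

set_option autoImplicit false
set_option maxRecDepth 100000

namespace Pool.Agent.Results.MP_c2a07f_nt.PowersOfTwo

/-- The generalized Bernoulli number `B_{m,ψ} = N^(m-1) ∑_{a=1}^N ψ(a) B_m(a/N)`. -/
noncomputable def genBernoulli (m : ℕ) {N : ℕ} (ψ : DirichletCharacter ℂ N) : ℂ :=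
  (N : ℂ) ^ (m - 1) * ∑ a ∈ Finset.Icc 1 N, ψ (a : ZMod N) *
    (((Polynomial.bernoulli m).eval ((a : ℚ) / N) : ℚ) : ℂ)

/-- `(1 - ψ(p) p^(m-1)) B_{m,ψ} / m`, the value at `1 - m` of the `L`-function of `ψ` without Euler factor
at `p` (up to the sign). -/
noncomputable def lValue (p m : ℕ) {N : ℕ} (ψ : DirichletCharacter ℂ N) : ℂ :=
  (1 - ψ (p : ZMod N) * (p : ℂ) ^ (m - 1)) * genBernoulli m ψ / m

/-- `z` is a unit at all places above `p`: it is not zero, and for some integer `c` prime to `p` the numbers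
`c z` and `c / z` are algebraic integers. -/
def IsUnitAt (p : ℕ) (z : ℂ) : Prop :=
  z ≠ 0 ∧ ∃ c : ℤ, IsCoprime (p : ℤ) c ∧ IsIntegral ℤ ((c : ℂ) * z) ∧ IsIntegral ℤ ((c : ℂ) * z⁻¹)

open Pool.Agent.X218.GX Pool.Agent.X218.LP

lemma part_one {p : ℕ} (hp : p.Prime) (h340 : p < 340) (h3 : 3 < p) (h8 : p % 8 = 3) {K m : ℕ} (hK : 4 ≤ K) (hm1 : 1 ≤ m)
    (hmp : m ≤ p - 1) (ψ : DirichletCharacter ℂ (2 ^ K)) (hprim : ψ.IsPrimitive) (hpar : ψ (-1) = (-1) ^ m) :
    Pool.Agent.Y18.GX.IsUnitAt p (Pool.Agent.X218.GX.lValue p m ψ) := by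
  have key : (∃ L, okm p = true ∧ okh p L = true) ∨ (∃ L, okl p = true ∧ okh p L = true) := by
    rcases list_eight p (List.mem_range.2 h340) h8 h3 with h | ⟨q, hq, h4, h5⟩
    · fin_cases h
      exacts [Or.inl ⟨_, q11⟩, Or.inl ⟨_, q19⟩, Or.inl ⟨_, q43⟩, Or.inl ⟨_, q59⟩, Or.inl ⟨_, q67⟩, Or.inl ⟨_, q83⟩,
        Or.inl ⟨_, q107⟩, Or.inl ⟨_, q131⟩, Or.inl ⟨_, q139⟩, Or.inr ⟨_, k163.1, k163.2.1⟩, Or.inl ⟨_, q179⟩,
        Or.inr ⟨_, k211.1, k211.2.1⟩, Or.inl ⟨_, q227⟩, Or.inl ⟨_, q251⟩, Or.inr ⟨_, q283⟩, Or.inl ⟨_, q307⟩,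
        Or.inr ⟨_, k331.1, k331.2.1⟩]
    · exfalso
      have hqp : q ∣ p := Nat.dvd_of_mod_eq_zero h4
      rcases (Nat.dvd_prime hp).1 hqp with h6 | h6
      · fin_cases hq <;> simp at h6
      · omega
  rcases key with ⟨L, h1, h2⟩ | ⟨L, h1, h2⟩
  · exact two_unit hp h8 h3 (by omega) hm1 hmp (by omega)
      (fun k _ _ χ e1 e2 => res_ne4 hp h8 h1 h2 hK hm1 (by omega) χ e1 e2) ψ hprim hpar
  · exact two_unit hp h8 h3 (by omega) hm1 hmp (by omega)
      (fun k _ _ χ e1 e2 => res_ne hp h8 h1 h2 (by omega) hm1 (by omega) χ e1 e2) ψ hprim hpar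

lemma part_two {p : ℕ} (hmem : p ∈ [163, 211, 283, 331]) {K m : ℕ} (hm1 : 1 ≤ m)
    (hmp : m ≤ p - 1) (hK0 : K = 0 → m ≠ p - 1 ∧ p ≠ 283) (hK3 : K = 3 → m ≠ 1)
    (ψ : DirichletCharacter ℂ (2 ^ K)) (hprim : ψ.IsPrimitive) (hpar : ψ (-1) = (-1) ^ m) :
    Pool.Agent.Y18.GX.IsUnitAt p (Pool.Agent.X218.GX.lValue p m ψ) := by
  have key : p.Prime ∧ 5 ≤ p ∧ p % 8 = 3 ∧ (p ≠ 283 → ok0all p = true) ∧ ∃ L, okl p = true ∧ okh p L = true := by
    fin_cases hmem
    · exact ⟨by norm_num, by norm_num, by norm_num, fun _ => k163.2.2, _, k163.1, k163.2.1⟩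
    · exact ⟨by norm_num, by norm_num, by norm_num, fun _ => k211.2.2, _, k211.1, k211.2.1⟩
    · exact ⟨by norm_num, by norm_num, by norm_num, fun h => absurd rfl h, _, q283⟩
    · exact ⟨by norm_num, by norm_num, by norm_num, fun _ => k331.2.2, _, k331.1, k331.2.1⟩
  obtain ⟨hp, hp5, h8, h0, L, h1, h2⟩ := key
  rcases Nat.lt_or_ge K 2 with hK | hK
  · interval_cases K
    · obtain ⟨hm, h283⟩ := hK0 rfl
      refine level_zero hp hp5 hm1 (by omega) hm ?_ ψ hpar
      intro hm2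
      have h0 := h0 h283
      unfold ok0all at h0
      rw [List.all_eq_true] at h0
      have h3 := h0 (m / 2 - 1) (List.mem_range.2 (by omega))
      rw [bne_iff_ne] at h3
      have e1 : 2 * (m / 2 - 1) + 2 = m := by omega
      rwa [e1] at h3
    · exfalso
      have h := dir_ne_one (C := ℂ) Nat.prime_two le_rfl ψ hprim
      have e0 : ψ ((0 : ℕ) : ZMod (2 ^ 1)) = 0 := by
        apply ψ.map_nonunit
        decide +kernel
      have e1 : ψ ((1 : ℕ) : ZMod (2 ^ 1)) = 1 := by rw [Nat.cast_one, map_one]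
      have h3 : ψ ((0 : ℕ) : ZMod (2 ^ 1)) + ψ ((1 : ℕ) : ZMod (2 ^ 1)) = 0 := by
        simpa [Finset.sum_range_succ] using h
      rw [e0, e1, zero_add] at h3
      exact one_ne_zero h3
  · exact two_unit hp h8 (by omega) hK hm1 hmp (fun h => hK3 h.1 h.2)
      (fun k _ _ χ e1 e2 => res_ne hp h8 h1 h2 hK hm1 (by omega) χ e1 e2) ψ hprim hpar

theorem result :
    (∀ p : ℕ, p.Prime → 3 < p → p < 340 → p % 8 = 3 → ∀ K m : ℕ, 4 ≤ K → 1 ≤ m → m ≤ p - 1 →
      ∀ ψ : DirichletCharacter ℂ (2 ^ K), ψ.IsPrimitive → ψ (-1) = (-1) ^ m → IsUnitAt p (lValue p m ψ)) ∧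
    (∀ p ∈ [163, 211, 283, 331], ∀ K m : ℕ, 1 ≤ m → m ≤ p - 1 → (K = 0 → m ≠ p - 1 ∧ p ≠ 283) → (K = 3 → m ≠ 1) →
      ∀ ψ : DirichletCharacter ℂ (2 ^ K), ψ.IsPrimitive → ψ (-1) = (-1) ^ m → IsUnitAt p (lValue p m ψ)) :=
  ⟨fun _ hp h3 h340 h8 _ _ hK hm1 hmp ψ hprim hpar => part_one hp h340 h3 h8 hK hm1 hmp ψ hprim hpar,
    fun _ hmem _ _ hm1 hmp hK0 hK3 ψ hprim hpar => part_two hmem hm1 hmp hK0 hK3 ψ hprim hpar⟩

end Pool.Agent.Results.MP_c2a07f_nt.PowersOfTwo
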