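import Pool.Agent.X218.GX.Chk

/-!
# Greenberg's conjecture for ten further primes `p` and all `N = 3^K`

Let `p ≥ 5` be a prime which is a primitive root modulo `9`, that is `p ≡ 2` or `5 (mod 9)`. The even characters `θ`
modulo `p 3^K` are the `ψ ω^m` with a primitive character `ψ` modulo `3^k`, `k ≤ K`, `1 ≤ m ≤ p - 1`,
`ψ(-1) = (-1)^m`, and

  `L_p(1 - m, θ) = - (1 - ψ(p) p^(m-1)) B_{m,ψ} / m`.

If this value is a unit at all places above `p`, then the `p`-adic `L`-function of `θ` is a unit and `X_θ = 0` (known: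
the support statement in the problem file).

1. For all primes `p < 300` of this kind (there are `22`) the value is a unit for all `m` and all `ψ` of
   conductor `3^K`, `K ≥ 2`. So `X⁺` for `N = 3^K` is the same for all `K ≥ 1`.
2. For `p = 11, 29, 41, 83, 137, 167, 173, 191, 227, 239` it is also a unit for `K = 0` and `K = 1`, except for the trivial
   character (`K = 0`, `m = p - 1`, where `X_θ = 0` as the class number of `ℚ` is one). So `X⁺ = 0` for these ten primes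
   and all `N = 3^K`. (The case `p = 5` is the starting result `FiveAndPowersOfThree`.)

Proof. Write `F_m(x) = m! (B_m(x) - B_m)`. If the value is not a unit at a place above `p`, `K ≥ 2`, then the sum of
`ψ(a) F_m(a/3^K)` is zero in the residue field, and so are its parts over the classes modulo `3^(K-1)`. As `p` is
inert in `ℚ(ζ_3)`, this means `F_m(a/3^K) = F_m((a + 3^(K-1))/3^K)` in the field with `p` elements for all
`a < 2 · 3^(K-1)`, `a ≡ 1 (mod 3)`. These differences are the power sums `m m! ∑ j^(m-1)` over `(p+1)/3` consecutive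
integers, and for `m > 3^(K-2)` one of them is not zero by a finite calculation; for `m ≤ 3^(K-2)` there are too many
zeros for a polynomial of degree `m - 1`. For `K = 0` and `K = 1` the values are rational numbers given by such power
sums modulo `p` or `p^2`.
-/

set_option autoImplicit false

namespace Pool.Agent.Results.MP_c2a07f_nt.PrimesAndPowersOfThree

/-- The generalized Bernoulli number `B_{m,ψ} = N^(m-1) ∑_{a=1}^N ψ(a) B_m(a/N)`. -/
noncomputable def genBernoulli (m : ℕ) {N : ℕ} (ψ : DirichletCharacter ℂ N) : ℂ :=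
  (N : ℂ) ^ (m - 1) * ∑ a ∈ Finset.Icc 1 N, ψ (a : ZMod N) *
    (((Polynomial.bernoulli m).eval ((a : ℚ) / N) : ℚ) : ℂ)

/-- `(1 - ψ(p) p^(m-1)) B_{m,ψ} / m`, the value at `1 - m` of the `L`-function of `ψ` without Euler factor
at `p` (up to the sign). -/
noncomputable def lValue (p m : ℕ) {N : ℕ} (ψ : DirichletCharacter ℂ N) : ℂ :=
  (1 - ψ (p : ZMod N) * (p : ℂ) ^ (m - 1)) * genBernoulli m ψ / m

/-- `z` is a unit at all places above `p`: it is not zero, and for some integer `c` prime to `p` the numbers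
`c z` and `c / z` are algebraic integers. -/
def IsUnitAt (p : ℕ) (z : ℂ) : Prop :=
  z ≠ 0 ∧ ∃ c : ℤ, IsCoprime (p : ℤ) c ∧ IsIntegral ℤ ((c : ℂ) * z) ∧ IsIntegral ℤ ((c : ℂ) * z⁻¹)

open Pool.Agent.X218.GX in
lemma part_one {p : ℕ} (hp : p.Prime) (h300 : p < 300) (h2 : 2 < p) (h9 : p % 9 = 2 ∨ p % 9 = 5) {K m : ℕ}
    (hK : 2 ≤ K) (hm1 : 1 ≤ m) (hmp : m ≤ p - 1) (ψ : DirichletCharacter ℂ (3 ^ K)) (hprim : ψ.IsPrimitive)
    (hpar : ψ (-1) = (-1) ^ m) : IsUnitAt p (lValue p m ψ) := by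
  have h5 : 5 ≤ p := by
    by_contra hcon
    have : p = 3 ∨ p = 4 := by omega
    omega
  rcases list_primes p (List.mem_range.2 h300) h9 h2 with h | ⟨q, hq, h3, h4⟩
  · fin_cases h
    · exact big hp h9 h5 3 c5 hK hm1 hmp ψ hprim hpar
    · exact big hp h9 h5 4 c11 hK hm1 hmp ψ hprim hpar
    · exact big hp h9 h5 4 c23 hK hm1 hmp ψ hprim hpar
    · exact big hp h9 h5 5 c29 hK hm1 hmp ψ hprim hpar
    · exact big hp h9 h5 5 c41 hK hm1 hmp ψ hprim hpar
    · exact big hp h9 h5 5 c47 hK hm1 hmp ψ hprim hpar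
    · exact big hp h9 h5 5 c59 hK hm1 hmp ψ hprim hpar
    · exact big hp h9 h5 6 c83 hK hm1 hmp ψ hprim hpar
    · exact big hp h9 h5 6 c101 hK hm1 hmp ψ hprim hpar
    · exact big hp h9 h5 6 c113 hK hm1 hmp ψ hprim hpar
    · exact big hp h9 h5 6 c131 hK hm1 hmp ψ hprim hpar
    · exact big hp h9 h5 6 c137 hK hm1 hmp ψ hprim hpar
    · exact big hp h9 h5 6 c149 hK hm1 hmp ψ hprim hpar
    · exact big hp h9 h5 6 c167 hK hm1 hmp ψ hprim hpar
    · exact big hp h9 h5 6 c173 hK hm1 hmp ψ hprim hpar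
    · exact big hp h9 h5 6 c191 hK hm1 hmp ψ hprim hpar
    · exact big hp h9 h5 6 c227 hK hm1 hmp ψ hprim hpar
    · exact big hp h9 h5 6 c239 hK hm1 hmp ψ hprim hpar
    · exact big hp h9 h5 7 c257 hK hm1 hmp ψ hprim hpar
    · exact big hp h9 h5 7 c263 hK hm1 hmp ψ hprim hpar
    · exact big hp h9 h5 7 c281 hK hm1 hmp ψ hprim hpar
    · exact big hp h9 h5 7 c293 hK hm1 hmp ψ hprim hpar
  · exfalso
    have hqp : q ∣ p := Nat.dvd_of_mod_eq_zero h3
    rcases (Nat.dvd_prime hp).1 hqp with h6 | h6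
    · fin_cases hq <;> simp at h6
    · omega

open Pool.Agent.X218.GX in
lemma part_two {p : ℕ} (hmem : p ∈ [11, 29, 41, 83, 137, 167, 173, 191, 227, 239]) {K m : ℕ}
    (hm1 : 1 ≤ m) (hmp : m ≤ p - 1) (hK0 : K = 0 → m ≠ p - 1) (ψ : DirichletCharacter ℂ (3 ^ K))
    (hprim : ψ.IsPrimitive) (hpar : ψ (-1) = (-1) ^ m) : IsUnitAt p (lValue p m ψ) := by
  fin_cases hmem
  · exact all (by norm_num) (by norm_num) (by norm_num) 4 c11 d11.1 d11.2 hm1 hmp hK0 ψ hprim hpar
  · exact all (by norm_num) (by norm_num) (by norm_num) 5 c29 d29.1 d29.2 hm1 hmp hK0 ψ hprim hpar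
  · exact all (by norm_num) (by norm_num) (by norm_num) 5 c41 d41.1 d41.2 hm1 hmp hK0 ψ hprim hpar
  · exact all (by norm_num) (by norm_num) (by norm_num) 6 c83 d83.1 d83.2 hm1 hmp hK0 ψ hprim hpar
  · exact all (by norm_num) (by norm_num) (by norm_num) 6 c137 d137.1 d137.2 hm1 hmp hK0 ψ hprim hpar
  · exact all (by norm_num) (by norm_num) (by norm_num) 6 c167 d167.1 d167.2 hm1 hmp hK0 ψ hprim hpar
  · exact all (by norm_num) (by norm_num) (by norm_num) 6 c173 d173.1 d173.2 hm1 hmp hK0 ψ hprim hpar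
  · exact all (by norm_num) (by norm_num) (by norm_num) 6 c191 d191.1 d191.2 hm1 hmp hK0 ψ hprim hpar
  · exact all (by norm_num) (by norm_num) (by norm_num) 6 c227 d227.1 d227.2 hm1 hmp hK0 ψ hprim hpar
  · exact all (by norm_num) (by norm_num) (by norm_num) 6 c239 d239.1 d239.2 hm1 hmp hK0 ψ hprim hpar

theorem result :
    (∀ p : ℕ, p.Prime → p < 300 → 2 < p → (p % 9 = 2 ∨ p % 9 = 5) → ∀ K m : ℕ, 2 ≤ K → 1 ≤ m → m ≤ p - 1 →
      ∀ ψ : DirichletCharacter ℂ (3 ^ K), ψ.IsPrimitive → ψ (-1) = (-1) ^ m → IsUnitAt p (lValue p m ψ)) ∧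
    (∀ p ∈ [11, 29, 41, 83, 137, 167, 173, 191, 227, 239], ∀ K m : ℕ, 1 ≤ m → m ≤ p - 1 →
      (K = 0 → m ≠ p - 1) → ∀ ψ : DirichletCharacter ℂ (3 ^ K), ψ.IsPrimitive → ψ (-1) = (-1) ^ m →
      IsUnitAt p (lValue p m ψ)) :=
  ⟨fun _ hp h300 h2 h9 _ _ hK hm1 hmp ψ hprim hpar => part_one hp h300 h2 h9 hK hm1 hmp ψ hprim hpar,
    fun _ hmem _ _ hm1 hmp hK0 ψ hprim hpar => part_two hmem hm1 hmp hK0 ψ hprim hpar⟩

end Pool.Agent.Results.MP_c2a07f_nt.PrimesAndPowersOfThree
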