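import Pool.Agent.X218.GX.Chk1

/-!
# Greenberg's conjecture for `p = 7` and `p = 31` and all `N = 3^K`

The even characters `θ` modulo `p 3^K` are the `ψ ω^m` with a primitive character `ψ` modulo `3^k`, `k ≤ K`,
`1 ≤ m ≤ p - 1`, `ψ(-1) = (-1)^m`, and

  `L_p(1 - m, θ) = - (1 - ψ(p) p^(m-1)) B_{m,ψ} / m`.

If this value is a unit at all places above `p`, then the `p`-adic `L`-function of `θ` is a unit and `X_θ = 0` (known:
the support statement in the problem file).

For `p = 7` and `p = 31` we show (part 1) that the value is a unit at all places above `p`, for all `K ≥ 0` and all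
`m` and `ψ`, except for

* the trivial character (`K = 0`, `m = p - 1`), where `X_θ = 0` as the class number of `ℚ` is one;
* `p = 7`, `K = 2`, `m = 6`: here `θ = ψ` is a cubic character of conductor `9`, and `X_θ = 0` as the cubic field has
  class number one and only one prime above `7`;
* `K = 1`, `m = 1`, `θ = ψ ω` with the quadratic character `ψ` of conductor `3`, where `ψ(p) = 1` and the value is zero
  (a trivial zero). Here we show (part 2) that the value at `1 - p`, `- (1 - ψ(p) p^(p-1)) B_{p,ψ} / p`, is `p` times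
  a unit. So the power series of `L_p(s, θ)` is the factor of the trivial zero times a unit, and `X_θ` is finite (known: the
  trivial zero does not belong to `X_θ`, Greenberg).

So for these two primes `X⁺` is finite for all `N = 3^K`. Here `p ≡ 4, 7 (mod 9)`, so that `p` splits in `ℚ(ζ_3)`, unlike
in `FiveAndPowersOfThree` and `PrimesAndPowersOfThree`.

Proof. Write `F_m(x) = m! (B_m(x) - B_m)`. If the value is not a unit at a place above `p`, `K ≥ 2`, then the parts of
the sum of `ψ(a) F_m(a/3^K)` over the classes modulo `3^(K-1)` are zero in the residue field, that is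
`F_m(x) + ξ F_m(x + 1/3) + ξ² F_m(x + 2/3) = 0` for `x = a/3^K`, `a < 3^(K-1)`, `a ≡ 1 (mod 3)`, with a primitive third root
of unity `ξ` of the field with `p` elements. The differences of these values are power sums modulo `p`; for `m > 3^(K-2)`
a finite calculation shows that this is not so, for `m ≤ 3^(K-2)` there are too many zeros for a polynomial of degree
`m - 1`. Part 2 is a calculation of power sums modulo `p^3`.
-/

set_option autoImplicit false

namespace Pool.Agent.Results.MP_c2a07f_nt.SevenAndThirtyOne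

/-- The generalized Bernoulli number `B_{m,ψ} = N^(m-1) ∑_{a=1}^N ψ(a) B_m(a/N)`. -/
noncomputable def genBernoulli (m : ℕ) {N : ℕ} (ψ : DirichletCharacter ℂ N) : ℂ :=
  (N : ℂ) ^ (m - 1) * ∑ a ∈ Finset.Icc 1 N, ψ (a : ZMod N) *
    (((Polynomial.bernoulli m).eval ((a : ℚ) / N) : ℚ) : ℂ)

/-- `(1 - ψ(p) p^(m-1)) B_{m,ψ} / m`, the value at `1 - m` of the `L`-function of `ψ` without Euler factor
at `p` (up to the sign). -/
noncomputable def lValue (p m : ℕ) {N : ℕ} (ψ : DirichletCharacter ℂ N) : ℂ :=
  (1 - ψ (p : ZMod N) * (p : ℂ) ^ (m - 1)) * genBernoulli m ψ / m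

/-- `z` is a unit at all places above `p`: it is not zero, and for some integer `c` prime to `p` the numbers
`c z` and `c / z` are algebraic integers. -/
def IsUnitAt (p : ℕ) (z : ℂ) : Prop :=
  z ≠ 0 ∧ ∃ c : ℤ, IsCoprime (p : ℤ) c ∧ IsIntegral ℤ ((c : ℂ) * z) ∧ IsIntegral ℤ ((c : ℂ) * z⁻¹)

open Pool.Agent.X218.GX in
theorem result :
    (∀ p ∈ [7, 31], ∀ K m : ℕ, 1 ≤ m → m ≤ p - 1 → (K = 0 → m ≠ p - 1) → (K = 1 → m ≠ 1) →
      ¬ (p = 7 ∧ K = 2 ∧ m = 6) → ∀ ψ : DirichletCharacter ℂ (3 ^ K), ψ.IsPrimitive → ψ (-1) = (-1) ^ m →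
      IsUnitAt p (lValue p m ψ)) ∧
    (∀ p ∈ [7, 31], ∀ ψ : DirichletCharacter ℂ (3 ^ 1), ψ.IsPrimitive → IsUnitAt p (lValue p p ψ / p)) := by
  refine ⟨?_, ?_⟩
  · intro p hmem K m hm1 hmp hK0 hK1 hex ψ hprim hpar
    fin_cases hmem
    · exact all3 (by norm_num) (by norm_num) (by norm_num) 3 e7.1 e7.2.1 e7.2.2 hm1 hmp hK0 hK1
        (fun h => absurd ⟨rfl, h.1, h.2⟩ hex) ψ hprim hpar
    · exact all3 (by norm_num) (by norm_num) (by norm_num) 5 e31.1 e31.2.2.1 e31.2.2.2 hm1 hmp hK0 hK1
        (fun h => by rw [h.1, h.2]; exact e31.2.1) ψ hprim hpar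
  · intro p hmem ψ hprim
    fin_cases hmem
    · exact trivial_zero (X1 := 229) (X2 := 115) (by norm_num) (by norm_num) (by norm_num) (by norm_num)
        (by norm_num) (by norm_num) zz7.1 zz7.2 ψ hprim
    · exact trivial_zero (X1 := 19861) (X2 := 9931) (by norm_num) (by norm_num) (by norm_num) (by norm_num)
        (by norm_num) (by norm_num) zz31.1 zz31.2 ψ hprim

end Pool.Agent.Results.MP_c2a07f_nt.SevenAndThirtyOne
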